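import Pool.Agent.Y113.MT.Stm
import Mathlib

/-!
# Adapted basis of a polarised Hodge structure
-/

set_option autoImplicit false

open Matrix

namespace Pool.Agent.Y31.MT

open Pool.Agent.Y113.MT

/-- the form -/
def psi {n : ℕ} (A : Matrix (Fin n) (Fin n) ℚ) (v w : Fin n → ℂ) : ℂ := v ⬝ᵥ (cq A *ᵥ w)

theorem psi_skew {n : ℕ} {A : Matrix (Fin n) (Fin n) ℚ} (hA : Aᵀ = -A) (v w : Fin n → ℂ) :
    psi A v w = -psi A w v := by
  unfold psi
  have h1 : (cq A)ᵀ = -cq A := by
    ext i j
    have := congrFun (congrFun hA i) j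
    rw [transpose_apply, neg_apply] at this
    simp only [cq, transpose_apply, map_apply, this]
    push_cast
    rfl
  rw [dotProduct_mulVec, ← mulVec_transpose, h1, neg_mulVec, neg_dotProduct, dotProduct_comm]

theorem psi_star {n : ℕ} (A : Matrix (Fin n) (Fin n) ℚ) (v w : Fin n → ℂ) :
    star (psi A v w) = psi A (fun i => star (v i)) (fun i => star (w i)) := by
  unfold psi dotProduct mulVec dotProduct
  rw [star_sum]
  refine Finset.sum_congr rfl fun i _ => ?_
  rw [star_mul', star_sum]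
  congr 1
  refine Finset.sum_congr rfl fun j _ => ?_
  rw [star_mul']
  congr 1
  simp [cq]

theorem psi_smul {n : ℕ} (A : Matrix (Fin n) (Fin n) ℚ) (s t : ℂ) (v w : Fin n → ℂ) :
    psi A (s • v) (t • w) = s * t * psi A v w := by
  unfold psi
  rw [smul_dotProduct, mulVec_smul, dotProduct_smul, smul_eq_mul, smul_eq_mul]
  ring

theorem row_psi {n : ℕ} (A : Matrix (Fin n) (Fin n) ℚ) (B C : Matrix (Fin n) (Fin n) ℂ)
    (i j : Fin n) : (B * cq A * Cᵀ) i j = psi A (B i) (C j) := by
  unfold psi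
  rw [dotProduct_mulVec]
  rfl

section

variable {m : ℕ} {Fil H : ℕ → Submodule ℂ (Fin (2 * m) → ℂ)}
  {A : Matrix (Fin (2 * m)) (Fin (2 * m)) ℚ} {P : Matrix (Fin (2 * m)) (Fin (2 * m)) ℂ}

theorem exists_b (hF : Polarised Fil A H) (hP : P.det ≠ 0)
    (hfil : ∀ i : ℕ, i ≤ m →
      Fil (2 * m - i) = Submodule.span ℂ {v | ∃ a : Fin (2 * m), (a : ℕ) < i ∧ v = P a})
    {i : ℕ} (hi : i < m) : ∃ v ∈ H (2 * m - 1 - i), v ≠ 0 := by
  by_contra hcon
  push Not at hcon
  have h1 : Fil (2 * m - (i + 1)) ≤ Fil (2 * m - i) := by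
    rw [hF.fil, hF.fil]
    refine iSup_le fun r => ?_
    by_cases hr : (r : ℕ) = 2 * m - 1 - i
    · intro v hv
      rw [hr] at hv
      rw [hcon v hv]
      exact Submodule.zero_mem _
    · exact le_iSup (fun r : {r : ℕ // 2 * m - i ≤ r ∧ r < 2 * m} => H r)
        ⟨r, by have := r.2.1; omega, r.2.2⟩
  rw [hfil (i + 1) (by omega), hfil i (by omega)] at h1
  have h2 : P ⟨i, by omega⟩ ∈ Submodule.span ℂ {v | ∃ a : Fin (2 * m), (a : ℕ) < i ∧ v = P a} :=
    h1 (Submodule.subset_span ⟨⟨i, by omega⟩, Nat.lt_succ_self i, rfl⟩)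
  have hli : LinearIndependent ℂ P := Matrix.linearIndependent_rows_of_det_ne_zero hP
  have h3 := hli.notMem_span_image (s := {a | (a : ℕ) < i}) (x := ⟨i, by omega⟩) (by simp)
  apply h3
  have e : {v | ∃ a : Fin (2 * m), (a : ℕ) < i ∧ v = P a} = P '' {a | (a : ℕ) < i} := by
    ext v
    constructor
    · rintro ⟨a, h, rfl⟩
      exact ⟨a, h, rfl⟩
    · rintro ⟨a, h, rfl⟩
      exact ⟨a, h, rfl⟩
  rw [← e]
  exact h2

theorem exists_c (hm : 1 ≤ m) (hF : Polarised Fil A H) (hA : Aᵀ = -A) (hP : P.det ≠ 0)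
    (hfil : ∀ i : ℕ, i ≤ m →
      Fil (2 * m - i) = Submodule.span ℂ {v | ∃ a : Fin (2 * m), (a : ℕ) < i ∧ v = P a}) :
    ∃ c : ℂ, c ≠ 0 ∧ ∀ i, i < m → ∃ v ∈ H (2 * m - 1 - i),
      psi A v (fun j => star (v j)) = c * (-1) ^ i := by
  obtain ⟨ε, hε, hpos⟩ := hF.pos
  have hε0 : ε ≠ 0 := by rcases hε with rfl | rfl <;> norm_num
  have hεs : star ε = ε := by rcases hε with rfl | rfl <;> simp
  set κ : ℂ := ε * Complex.I ^ (2 * m - 1) with hκ
  have hκ0 : κ ≠ 0 := mul_ne_zero hε0 (pow_ne_zero _ Complex.I_ne_zero)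
  have hκs : star κ = -κ := by
    have hodd : Odd (2 * m - 1) := ⟨m - 1, by omega⟩
    rw [hκ, star_mul', hεs, star_pow]
    have : star Complex.I = -Complex.I := Complex.conj_I
    rw [this, hodd.neg_pow]
    ring
  refine ⟨κ⁻¹, inv_ne_zero hκ0, fun i hi => ?_⟩
  obtain ⟨v, hv, hv0⟩ := exists_b hF hP hfil hi
  have h1 := hpos (2 * m - 1 - i) (by omega) v hv hv0
  have e1 : 2 * m - 1 - (2 * m - 1 - i) = i := by omega
  rw [e1] at h1
  have e2 : ε * (Complex.I ^ (2 * m - 1 - i) * (-Complex.I) ^ i) = κ * (-1) ^ i := by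
    rw [hκ, neg_pow Complex.I i]
    have e3 : Complex.I ^ (2 * m - 1) = Complex.I ^ (2 * m - 1 - i) * Complex.I ^ i := by
      rw [← pow_add]
      congr 1
      omega
    rw [e3]
    ring
  rw [e2] at h1
  set ρ : ℂ := psi A v (fun j => star (v j)) with hρ
  have hρs : star ρ = -ρ := by
    rw [hρ, psi_star, psi_skew hA]
    simp only [star_star]
  have hs : star (κ * (-1) ^ i * ρ) = κ * (-1) ^ i * ρ := by
    rw [star_mul', star_mul', hκs, hρs, star_pow, star_neg, star_one]
    ring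
  have hs' : κ * (-1) ^ i * ρ = (((κ * (-1) ^ i * ρ).re : ℝ) : ℂ) :=
    (Complex.conj_eq_iff_re.1 hs).symm
  obtain ⟨s, hsdef⟩ : ∃ s : ℝ, s = (κ * (-1) ^ i * ρ).re := ⟨_, rfl⟩
  have hspos : 0 < s := by rw [hsdef]; exact h1
  rw [← hsdef] at hs'
  refine ⟨((1 / Real.sqrt s : ℝ) : ℂ) • v, Submodule.smul_mem _ _ hv, ?_⟩
  have e4 : (fun j => star ((((1 / Real.sqrt s : ℝ) : ℂ) • v) j)) =
      ((1 / Real.sqrt s : ℝ) : ℂ) • fun j => star (v j) := by
    funext j
    simp only [Pi.smul_apply, smul_eq_mul, star_mul']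
    congr 1
    exact Complex.conj_ofReal _
  rw [e4, psi_smul, ← hρ]
  have e5 : ((1 / Real.sqrt s : ℝ) : ℂ) * ((1 / Real.sqrt s : ℝ) : ℂ) * (s : ℂ) = 1 := by
    rw [← Complex.ofReal_mul, ← Complex.ofReal_mul]
    have : 1 / Real.sqrt s * (1 / Real.sqrt s) * s = 1 := by
      have h2 : Real.sqrt s * Real.sqrt s = s := Real.mul_self_sqrt hspos.le
      have h3 : Real.sqrt s ≠ 0 := (Real.sqrt_pos.2 hspos).ne'
      field_simp
      nlinarith
    rw [this]
    rfl
  have e6 : ((-1 : ℂ) ^ i) * (-1) ^ i = 1 := by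
    rw [← mul_pow]
    norm_num
  rw [← hs'] at e5
  field_simp
  linear_combination (-1 : ℂ) ^ i * e5 - κ * ρ * (((1 / Real.sqrt s : ℝ) : ℂ) *
    ((1 / Real.sqrt s : ℝ) : ℂ)) * e6

theorem ss_det (n : ℕ) : (SS ℂ n).det ≠ 0 := by
  have h : SS ℂ n * (SS ℂ n)ᵀ = 1 := by
    ext i j
    rw [mul_apply, Finset.sum_eq_single (Fin.rev i)]
    · rw [transpose_apply, one_apply]
      unfold SS
      simp only [of_apply, Fin.val_rev]
      rw [if_pos (by omega)]
      by_cases hij : i = j
      · subst hij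
        rw [if_pos (by omega), if_pos rfl, ← mul_pow]
        norm_num
      · rw [if_neg (fun h => hij (Fin.ext (by omega))), if_neg hij, mul_zero]
    · intro k _ hk
      have : (SS ℂ n) i k = 0 := by
        unfold SS
        simp only [of_apply]
        rw [if_neg]
        intro h
        apply hk
        apply Fin.ext
        rw [Fin.val_rev]
        omega
      rw [this, zero_mul]
    · intro h
      exact absurd (Finset.mem_univ _) h
  intro h0
  have h1 := congrArg Matrix.det h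
  rw [det_mul, h0, zero_mul, det_one] at h1
  exact zero_ne_one h1

/-- the antidiagonal of a nondegenerate matrix which vanishes above it -/
theorem anti_ne {n : ℕ} {T : Matrix (Fin n) (Fin n) ℂ} (hT : T.det ≠ 0)
    (h0 : ∀ a b : Fin n, (a : ℕ) + b + 1 < n → T a b = 0) (b : Fin n) : T (Fin.rev b) b ≠ 0 := by
  set U : Matrix (Fin n) (Fin n) ℂ := T.submatrix id Fin.revPerm with hU
  have h1 : U.det ≠ 0 := by
    rw [hU, det_permute']
    refine mul_ne_zero ?_ hT
    rcases Int.units_eq_one_or (Equiv.Perm.sign (Fin.revPerm : Equiv.Perm (Fin n))) with h | h <;>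
      rw [h] <;> simp
  have h2 : U.det = ∏ i, U i i := by
    apply det_of_isLowerTriangular
    intro i j hij
    have hij' : (i : ℕ) < j := hij
    rw [hU]
    simp only [submatrix_apply, id, Fin.revPerm_apply]
    apply h0
    rw [Fin.val_rev]
    omega
  rw [h2] at h1
  have h3 := Finset.prod_ne_zero_iff.1 h1 (Fin.rev b) (Finset.mem_univ _)
  rw [hU] at h3
  simpa using h3

theorem tri_low {k : ℕ} (hP : P.det ≠ 0) {v : Fin (2 * m) → ℂ}
    (hv : v ∈ Submodule.span ℂ {v | ∃ a : Fin (2 * m), (a : ℕ) < k ∧ v = P a})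
    (b : Fin (2 * m)) (hb : k ≤ b) : (v ᵥ* P⁻¹) b = 0 := by
  have hu : IsUnit P.det := isUnit_iff_ne_zero.2 hP
  induction hv using Submodule.span_induction with
  | mem x hx =>
    obtain ⟨a, ha, rfl⟩ := hx
    have e : (P a ᵥ* P⁻¹) b = (P * P⁻¹) a b := rfl
    rw [e, mul_nonsing_inv P hu, one_apply_ne]
    intro h
    rw [h] at ha
    omega
  | zero => simp
  | add x y _ _ hx hy => rw [add_vecMul, Pi.add_apply, hx, hy, add_zero]
  | smul t x _ hx => rw [smul_vecMul, Pi.smul_apply, hx, smul_zero]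

end

/-- **adapted basis** -/
theorem idx : S_IDX := by
  intro m hm Fil H A P hF hA hP hT hfil
  obtain ⟨c, hc, hb⟩ := exists_c hm hF hA hP hfil
  choose! b hbH hbc using hb
  set B : Matrix (Fin (2 * m)) (Fin (2 * m)) ℂ := Matrix.of fun i j =>
    if (i : ℕ) < m then b i j else star (b (2 * m - 1 - i) j) with hB
  have hB1 : ∀ i : Fin (2 * m), (i : ℕ) < m → B i = b i := by
    intro i hi
    funext j
    rw [hB, of_apply, if_pos hi]
  have hB2 : ∀ i : Fin (2 * m), ¬ (i : ℕ) < m → B i = fun j => star (b (2 * m - 1 - i) j) := by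
    intro i hi
    funext j
    rw [hB, of_apply, if_neg hi]
  have hstar : ∀ i j, star (B i j) = B (Fin.rev i) j := by
    intro i j
    have hi2 := i.2
    by_cases hi : (i : ℕ) < m
    · rw [hB1 i hi, hB2 (Fin.rev i) (by rw [Fin.val_rev]; omega)]
      have : 2 * m - 1 - ((Fin.rev i : Fin (2 * m)) : ℕ) = i := by rw [Fin.val_rev]; omega
      simp only [this]
    · rw [hB2 i hi, hB1 (Fin.rev i) (by rw [Fin.val_rev]; omega)]
      have : ((Fin.rev i : Fin (2 * m)) : ℕ) = 2 * m - 1 - i := by rw [Fin.val_rev]; omega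
      rw [this]
      simp
  have hstar' : ∀ i, (fun j => star (B i j)) = B (Fin.rev i) := fun i => funext fun j => hstar i j
  have hmem : ∀ i : Fin (2 * m), B i ∈ H (2 * m - 1 - i) := by
    intro i
    have hi2 := i.2
    by_cases hi : (i : ℕ) < m
    · rw [hB1 i hi]
      exact hbH i hi
    · rw [hB2 i hi]
      have h1 := hF.conj (2 * m - 1 - (2 * m - 1 - i)) (by omega) _
        (hbH (2 * m - 1 - i) (by omega))
      have h2 : 2 * m - 1 - (2 * m - 1 - (2 * m - 1 - (i : ℕ))) = 2 * m - 1 - i := by omega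
      rw [h2] at h1
      exact h1
  have horth : ∀ i j : Fin (2 * m), (i : ℕ) + j + 1 ≠ 2 * m → psi A (B i) (B j) = 0 := by
    intro i j hij
    have hi2 := i.2
    have hj2 := j.2
    exact hF.orth (2 * m - 1 - i) (by omega) (2 * m - 1 - j) (by omega) (by omega) _ (hmem i) _
      (hmem j)
  have hdiag : ∀ i : Fin (2 * m), psi A (B i) (B (Fin.rev i)) = c * (-1) ^ (i : ℕ) := by
    have key : ∀ i : Fin (2 * m), (i : ℕ) < m →
        psi A (B i) (B (Fin.rev i)) = c * (-1) ^ (i : ℕ) := by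
      intro i hi
      rw [← hstar' i, hB1 i hi]
      exact hbc i hi
    intro i
    have hi2 := i.2
    by_cases hi : (i : ℕ) < m
    · exact key i hi
    · have h1 := key (Fin.rev i) (by rw [Fin.val_rev]; omega)
      rw [Fin.rev_rev] at h1
      rw [psi_skew hA, h1, Fin.val_rev]
      have h2 : (-1 : ℂ) ^ (2 * m - (↑i + 1)) * (-1) ^ (i : ℕ) = -1 := by
        rw [← pow_add]
        have : Odd (2 * m - (↑i + 1) + (i : ℕ)) := ⟨m - 1, by omega⟩
        exact this.neg_one_pow
      have h3 : (-1 : ℂ) ^ (i : ℕ) * (-1) ^ (i : ℕ) = 1 := by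
        rw [← mul_pow]
        norm_num
      linear_combination -c * (-1 : ℂ) ^ (i : ℕ) * h2 +
        c * (-1 : ℂ) ^ (2 * m - (↑i + 1)) * h3
  have hBAB : B * cq A * Bᵀ = c • SS ℂ (2 * m) := by
    ext i j
    rw [row_psi, Matrix.smul_apply, smul_eq_mul]
    unfold SS
    rw [of_apply]
    by_cases hij : (i : ℕ) + j + 1 = 2 * m
    · rw [if_pos hij]
      have : j = Fin.rev i := by
        apply Fin.ext
        rw [Fin.val_rev]
        omega
      rw [this]
      exact hdiag i
    · rw [if_neg hij, mul_zero]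
      exact horth i j hij
  have hAdet : (cq A).det ≠ 0 := by
    intro h0
    have h1 := congrArg Matrix.det hBAB
    rw [det_mul, det_mul, h0, mul_zero, zero_mul, det_smul] at h1
    exact (mul_ne_zero (pow_ne_zero _ hc) (ss_det _)) h1.symm
  have hTdet : (P * cq A * Pᵀ).det ≠ 0 := by
    rw [det_mul, det_mul, det_transpose]
    exact mul_ne_zero (mul_ne_zero hP hAdet) hP
  have hu : IsUnit P.det := isUnit_iff_ne_zero.2 hP
  have hBP : B = B * P⁻¹ * P := by
    rw [Matrix.mul_assoc, nonsing_inv_mul P hu, Matrix.mul_one]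
  refine ⟨B, B * P⁻¹, c, hc, hBAB, hstar, hmem, hBP, ?_⟩
  intro i k hik
  have hi2 := i.2
  have hik' : (i : ℕ) < k := hik
  by_cases hi : (i : ℕ) < m
  · have h1 : B i ∈ Fil (2 * m - (i + 1)) := by
      rw [hF.fil]
      have h2 := hmem i
      exact le_iSup (fun r : {r : ℕ // 2 * m - (i + 1) ≤ r ∧ r < 2 * m} => H r)
        ⟨2 * m - 1 - i, by omega, by omega⟩ h2
    rw [hfil (i + 1) (by omega)] at h1
    exact tri_low hP h1 k (by omega)
  · -- orthogonality to the rows of `P`
    have h1 : ∀ v ∈ Fil (2 * m - (2 * m - 1 - i)), psi A (B i) v = 0 := by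
      intro v hv
      rw [hF.fil] at hv
      refine Submodule.iSup_induction _ (motive := fun v => psi A (B i) v = 0) hv
        (fun r x hx => ?_) ?_ fun x y hx hy => ?_
      · have hr := r.2
        exact hF.orth (2 * m - 1 - i) (by omega) r hr.2 (by omega) _ (hmem i) _ hx
      · unfold psi
        rw [mulVec_zero, dotProduct_zero]
      · unfold psi at hx hy ⊢
        rw [mulVec_add, dotProduct_add, hx, hy, add_zero]
    rw [hfil (2 * m - 1 - i) (by omega)] at h1
    have h2 : ∀ q : Fin (2 * m), (q : ℕ) < 2 * m - 1 - i → psi A (B i) (P q) = 0 := fun q hq =>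
      h1 _ (Submodule.subset_span ⟨q, hq, rfl⟩)
    have h3 : ∀ q : Fin (2 * m), psi A (B i) (P q) =
        ∑ a, (B * P⁻¹) i a * (P * cq A * Pᵀ) a q := by
      intro q
      rw [← row_psi]
      conv_lhs => rw [hBP]
      rw [Matrix.mul_assoc (B * P⁻¹), Matrix.mul_assoc (B * P⁻¹), ← mul_apply, Matrix.mul_assoc P]
    have key : ∀ N : ℕ, ∀ q : Fin (2 * m), (q : ℕ) = N → N < 2 * m - 1 - i →
        (B * P⁻¹) i (Fin.rev q) = 0 := by
      intro N
      induction N using Nat.strong_induction_on with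
      | _ N ih =>
        intro q hq hN
        have h4 := h2 q (by omega)
        rw [h3, Finset.sum_eq_single (Fin.rev q)] at h4
        · exact (mul_eq_zero.1 h4).resolve_right (anti_ne hTdet hT q)
        · intro a _ ha
          by_cases h5 : (a : ℕ) + q + 1 < 2 * m
          · rw [hT a q h5, mul_zero]
          · have h6 : (a : ℕ) ≠ 2 * m - (q + 1) := by
              intro h7
              apply ha
              apply Fin.ext
              rw [Fin.val_rev]
              exact h7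
            have ha2 := a.2
            have h7 := ih (2 * m - 1 - a) (by omega) (Fin.rev a) (by rw [Fin.val_rev]; omega)
              (by omega)
            rw [Fin.rev_rev] at h7
            rw [h7, zero_mul]
        · intro h
          exact absurd (Finset.mem_univ _) h
    have hk2 := k.2
    have h8 := key (2 * m - 1 - k) (Fin.rev k) (by rw [Fin.val_rev]; omega) (by omega)
    rw [Fin.rev_rev] at h8
    exact h8

end Pool.Agent.Y31.MT
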